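import Pool.Agent.H54.PM.Targets

/-!
# Board pmf: auxiliary lemmas for the gluing rows
-/

set_option autoImplicit false

open scoped symmDiff

namespace Pool.Agent.H52.PMF

open Pool.Agent.H54.PM

variable {p : ℕ} [NeZero p]

omit [NeZero p] in
theorem ag_refl (i : Fin p) (g : Wd p) : ag i g g := fun _ _ => rfl

omit [NeZero p] in
theorem ag_symm {i : Fin p} {g h : Wd p} (H : ag i g h) : ag i h g := fun t ht => (H t ht).symm

omit [NeZero p] in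
theorem ag_trans {i : Fin p} {g h k : Wd p} (H : ag i g h) (H' : ag i h k) : ag i g k :=
  fun t ht => (H t ht).trans (H' t ht)

theorem ag2_of_ag {i : Fin p} {g h : Wd p} (H : ag i g h) : ag2 i g h := fun t ht _ => H t ht

theorem ag2_symm {i : Fin p} {g h : Wd p} (H : ag2 i g h) : ag2 i h g :=
  fun t ht ht' => (H t ht ht').symm

theorem ag2_trans {i : Fin p} {g h k : Wd p} (H : ag2 i g h) (H' : ag2 i h k) : ag2 i g k :=
  fun t ht ht' => (H t ht ht').trans (H' t ht ht')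

/-- the words of `W₂` next to a common word -/
theorem partner {W₁ W₂ : Finset (Wd p)} (h2 : Lin W₂)
    (ho : ∀ i, ∀ k ∈ W₁ ∩ W₂, ∀ k' ∈ W₁ ∩ W₂, ag i k k' → k = k') (i : Fin p) (k : Wd p)
    (hk : k ∈ W₁ ∩ W₂) : ∃ b, b ∈ W₂ ∧ b ∉ W₁ ∧ b ≠ k ∧ ag i k b ∧
      ∀ l ∈ W₂, ag i k l → l = k ∨ l = b := by
  obtain ⟨b, hb, hne, hag, hu⟩ := h2 i k (Finset.mem_inter.1 hk).2
  refine ⟨b, hb, fun hb1 => hne ?_, hne, hag, hu⟩
  exact (ho i k hk b (Finset.mem_inter.2 ⟨hb1, hb⟩) hag).symm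

/-- the hypotheses of the gluing with the two sets exchanged -/
theorem line_swap {W₁ W₂ : Finset (Wd p)}
    (hl : ∀ i, ∀ g ∈ W₁, ∀ h ∈ W₂, ag i g h → ∃ k ∈ W₁ ∩ W₂, ag i g k) :
    ∀ i, ∀ g ∈ W₂, ∀ h ∈ W₁, ag i g h → ∃ k ∈ W₂ ∩ W₁, ag i g k := by
  intro i g hg h hh hag
  obtain ⟨k, hk, hk'⟩ := hl i h hh g hg (ag_symm hag)
  exact ⟨k, by rwa [Finset.inter_comm], ag_trans hag hk'⟩

theorem one_swap {W₁ W₂ : Finset (Wd p)}
    (ho : ∀ i, ∀ k ∈ W₁ ∩ W₂, ∀ k' ∈ W₁ ∩ W₂, ag i k k' → k = k') :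
    ∀ i, ∀ k ∈ W₂ ∩ W₁, ∀ k' ∈ W₂ ∩ W₁, ag i k k' → k = k' := by
  intro i k hk k' hk' hag
  rw [Finset.inter_comm] at hk hk'
  exact ho i k hk k' hk' hag

/-- paths in `W` can be reversed -/
theorem mv_rev {W : Finset (Wd p)} {g h : Wd p} (H : Relation.ReflTransGen (mv W) g h)
    (hg : g ∈ W) : Relation.ReflTransGen (mv W) h g := by
  induction H using Relation.ReflTransGen.head_induction_on with
  | refl => exact Relation.ReflTransGen.refl
  | head hst _ ih =>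
    obtain ⟨hm, i, hi⟩ := hst
    exact (ih hm).tail ⟨hg, i, ag_symm hi⟩

end Pool.Agent.H52.PMF
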