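import Pool.Agent.H52.PMF.Base

/-!
# Board pmf, row GLB: colourings
-/

set_option autoImplicit false

open scoped symmDiff

namespace Pool.Agent.H52.PMF

open Pool.Agent.H54.PM

theorem pf_GLB : T_GLB := by
  intro p _ W₁ W₂ f _ _ H hK hB1 hB2
  classical
  obtain ⟨c₁, hc₁⟩ := hB1
  obtain ⟨c₂, hc₂, hf⟩ : ∃ c : Wd p → Bool, (∀ g ∈ W₂, ∀ h ∈ W₂, g ≠ h → (∃ i, ag i g h) →
      c g ≠ c h) ∧ c f ≠ c₁ f := by
    obtain ⟨c, hc⟩ := hB2
    by_cases h0 : c f = c₁ f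
    · refine ⟨fun g => !(c g), fun g hg h hh hne hi => ?_, ?_⟩
      · have := hc g hg h hh hne hi
        intro h1
        exact this (Bool.not_inj h1)
      · intro h1
        rw [← h0] at h1
        cases hcf : c f <;> simp [hcf] at h1
    · exact ⟨c, hc, h0⟩
  have hfK : f ∈ W₁ ∩ W₂ := by rw [hK]; exact Finset.mem_singleton_self f
  obtain ⟨hf1, hf2⟩ := Finset.mem_inter.1 hfK
  -- neighbours in different parts
  have hmix : ∀ g h, g ∈ W₁ → g ∉ W₂ → h ∈ W₂ → h ∉ W₁ → (∃ i, ag i g h) → c₁ g ≠ c₂ h := by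
    intro g h hg1 hg2 hh2 hh1 hi
    obtain ⟨i, hi⟩ := hi
    obtain ⟨k, hk, hgk⟩ := H.line i g hg1 h hh2 hi
    rw [hK, Finset.mem_singleton] at hk
    subst hk
    have e1 := hc₁ g hg1 k hf1 (fun h0 => hg2 (h0 ▸ hf2)) ⟨i, hgk⟩
    have e2 := hc₂ h hh2 k hf2 (fun h0 => hh1 (h0 ▸ hf1)) ⟨i, ag_trans (ag_symm hi) hgk⟩
    intro e3
    cases h1 : c₁ g <;> cases h2 : c₂ h <;> cases h3 : c₁ k <;> cases h4 : c₂ k <;>
      simp_all
  refine ⟨fun g => if g ∈ W₁ then c₁ g else c₂ g, fun g hg h hh hne hi => ?_⟩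
  rcases Finset.mem_symmDiff.1 hg with ⟨g1, g2⟩ | ⟨g2, g1⟩ <;>
  rcases Finset.mem_symmDiff.1 hh with ⟨h1, h2⟩ | ⟨h2, h1⟩
  · simp only [g1, h1, if_true]
    exact hc₁ g g1 h h1 hne hi
  · simp only [g1, h1, if_true, if_false]
    exact hmix g h g1 g2 h2 h1 hi
  · simp only [g1, h1, if_true, if_false]
    obtain ⟨i, hi⟩ := hi
    exact (hmix h g h1 h2 g2 g1 ⟨i, ag_symm hi⟩).symm
  · simp only [g1, h1, if_false]
    exact hc₂ g g2 h h2 hne hi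

end Pool.Agent.H52.PMF
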