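import Pool.Agent.H52.PMF.Base

/-!
# Board pmf, row GLC: the Euler characteristic
-/

set_option autoImplicit false

open scoped symmDiff

namespace Pool.Agent.H52.PMF

open Pool.Agent.H54.PM

theorem rs_eq {p : ℕ} [NeZero p] (i : Fin p) (g h : Wd p) : rs i g = rs i h ↔ ag i g h := by
  constructor
  · intro H t ht
    have := congrFun H t
    simpa [rs, ht] using this
  · intro H
    funext t
    unfold rs
    by_cases ht : t = i
    · simp [ht]
    · simp [ht, H t ht]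

theorem rs2_eq {p : ℕ} [NeZero p] (i : Fin p) (g h : Wd p) : rs2 i g = rs2 i h ↔ ag2 i g h := by
  constructor
  · intro H t ht ht'
    have := congrFun H t
    simpa [rs2, ht, ht'] using this
  · intro H
    funext t
    unfold rs2
    by_cases ht : t = i ∨ t = i + 1
    · simp [ht]
    · rw [not_or] at ht
      simp [ht.1, ht.2, H t ht.1 ht.2]

/-- inclusion and exclusion for images -/
theorem image_card {α : Type*} [DecidableEq α] (W₁ W₂ : Finset α) (r : α → α)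
    (ha : ∀ k ∈ W₁ ∩ W₂, ∃ b ∈ W₁ ∆ W₂, r b = r k)
    (hb : ∀ g ∈ W₁, ∀ h ∈ W₂, r g = r h → ∃ k ∈ W₁ ∩ W₂, r g = r k) :
    ((W₁ ∆ W₂).image r).card + ((W₁ ∩ W₂).image r).card =
      (W₁.image r).card + (W₂.image r).card := by
  have h1 : (W₁ ∆ W₂).image r = W₁.image r ∪ W₂.image r := by
    ext y
    simp only [Finset.mem_image, Finset.mem_union, Finset.mem_symmDiff]
    constructor
    · rintro ⟨x, ⟨hx, _⟩ | ⟨hx, _⟩, rfl⟩
      · exact Or.inl ⟨x, hx, rfl⟩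
      · exact Or.inr ⟨x, hx, rfl⟩
    · rintro (⟨x, hx, rfl⟩ | ⟨x, hx, rfl⟩)
      · by_cases hx' : x ∈ W₂
        · obtain ⟨b, hb', hr⟩ := ha x (Finset.mem_inter.2 ⟨hx, hx'⟩)
          exact ⟨b, Finset.mem_symmDiff.1 hb', hr⟩
        · exact ⟨x, Or.inl ⟨hx, hx'⟩, rfl⟩
      · by_cases hx' : x ∈ W₁
        · obtain ⟨b, hb', hr⟩ := ha x (Finset.mem_inter.2 ⟨hx', hx⟩)
          exact ⟨b, Finset.mem_symmDiff.1 hb', hr⟩
        · exact ⟨x, Or.inr ⟨hx, hx'⟩, rfl⟩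
  have h2 : (W₁ ∩ W₂).image r = W₁.image r ∩ W₂.image r := by
    ext y
    simp only [Finset.mem_image, Finset.mem_inter]
    constructor
    · rintro ⟨x, ⟨hx, hx'⟩, rfl⟩
      exact ⟨⟨x, hx, rfl⟩, ⟨x, hx', rfl⟩⟩
    · rintro ⟨⟨x, hx, rfl⟩, ⟨z, hz, hzx⟩⟩
      obtain ⟨k, hk, hr⟩ := hb x hx z hz hzx.symm
      exact ⟨k, Finset.mem_inter.1 hk, hr.symm⟩
  rw [h1, h2]
  exact Finset.card_union_add_card_inter _ _

theorem pf_GLC : T_GLC := by
  intro p _ W₁ W₂ hp hW₁ hW₂ H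
  classical
  -- words
  have hc : (W₁ ∆ W₂).card + 2 * (W₁ ∩ W₂).card = W₁.card + W₂.card := by
    have h1 : (W₁ ∆ W₂).card = (W₁ \ W₂).card + (W₂ \ W₁).card := by
      rw [symmDiff_def, Finset.sup_eq_union]
      exact Finset.card_union_of_disjoint disjoint_sdiff_sdiff
    have h2 := Finset.card_sdiff_add_card_inter W₁ W₂
    have h3 := Finset.card_sdiff_add_card_inter W₂ W₁
    rw [Finset.inter_comm] at h3
    omega
  have hpart : ∀ i, ∀ k ∈ W₁ ∩ W₂, ∃ b ∈ W₁ ∆ W₂, ag i k b := by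
    intro i k hk
    obtain ⟨b, hb2, hb1, _, hag, _⟩ := partner hW₂.line H.one i k hk
    exact ⟨b, Finset.mem_symmDiff.2 (Or.inr ⟨hb2, hb1⟩), hag⟩
  -- edges
  have he : ∀ i, ((W₁ ∆ W₂).image (rs i)).card + (W₁ ∩ W₂).card =
      (W₁.image (rs i)).card + (W₂.image (rs i)).card := by
    intro i
    have hinj : ((W₁ ∩ W₂).image (rs i)).card = (W₁ ∩ W₂).card := by
      refine Finset.card_image_of_injOn fun k hk k' hk' hr => ?_
      exact H.one i k (Finset.mem_coe.1 hk) k' (Finset.mem_coe.1 hk') ((rs_eq i k k').1 hr)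
    rw [← hinj]
    refine image_card W₁ W₂ (rs i) ?_ ?_
    · intro k hk
      obtain ⟨b, hb, hag⟩ := hpart i k hk
      exact ⟨b, hb, ((rs_eq i k b).2 hag).symm⟩
    · intro g hg h hh hr
      obtain ⟨k, hk, hk'⟩ := H.line i g hg h hh ((rs_eq i g h).1 hr)
      exact ⟨k, hk, (rs_eq i g k).2 hk'⟩
  -- vertices
  have hv : ∀ i, ((W₁ ∆ W₂).image (rs2 i)).card + ((W₁ ∩ W₂).image (rs2 i)).card =
      (W₁.image (rs2 i)).card + (W₂.image (rs2 i)).card := by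
    intro i
    refine image_card W₁ W₂ (rs2 i) ?_ ?_
    · intro k hk
      obtain ⟨b, hb, hag⟩ := hpart i k hk
      exact ⟨b, hb, ((rs2_eq i k b).2 (ag2_of_ag hag)).symm⟩
    · intro g hg h hh hr
      obtain ⟨k, hk, hk'⟩ := H.plane i g hg h hh ((rs2_eq i g h).1 hr)
      exact ⟨k, hk, (rs2_eq i g k).2 hk'⟩
  have hE : nE (W₁ ∆ W₂) + p * (W₁ ∩ W₂).card = nE W₁ + nE W₂ := by
    unfold nE
    rw [← Finset.sum_add_distrib, ← Finset.sum_congr rfl fun i _ => he i,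
      Finset.sum_add_distrib]
    simp
  have hV : nV (W₁ ∆ W₂) + ∑ i : Fin p, ((W₁ ∩ W₂).image (rs2 i)).card = nV W₁ + nV W₂ := by
    unfold nV
    rw [← Finset.sum_add_distrib, ← Finset.sum_add_distrib]
    exact Finset.sum_congr rfl fun i _ => hv i
  have hc' : ((W₁ ∆ W₂).card : ℤ) + 2 * (W₁ ∩ W₂).card = W₁.card + W₂.card := by
    exact_mod_cast hc
  have hE' : (nE (W₁ ∆ W₂) : ℤ) + p * (W₁ ∩ W₂).card = nE W₁ + nE W₂ := by exact_mod_cast hE
  have hV' : (nV (W₁ ∆ W₂) : ℤ) + ∑ i : Fin p, (((W₁ ∩ W₂).image (rs2 i)).card : ℤ) =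
      nV W₁ + nV W₂ := by exact_mod_cast hV
  unfold cw
  linear_combination hV' - hE' + hc'

end Pool.Agent.H52.PMF
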