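import Pool.Agent.H52.PMF.Base

/-!
# Board pmf, row GLL: the lines
-/

set_option autoImplicit false

open scoped symmDiff

namespace Pool.Agent.H52.PMF

open Pool.Agent.H54.PM

theorem gll_half {p : ℕ} [NeZero p] {W₁ W₂ : Finset (Wd p)} (h1 : Lin W₁) (h2 : Lin W₂)
    (hl : ∀ i, ∀ g ∈ W₁, ∀ h ∈ W₂, ag i g h → ∃ k ∈ W₁ ∩ W₂, ag i g k)
    (ho : ∀ i, ∀ k ∈ W₁ ∩ W₂, ∀ k' ∈ W₁ ∩ W₂, ag i k k' → k = k') (i : Fin p) (g : Wd p)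
    (hg1 : g ∈ W₁) (hg2 : g ∉ W₂) :
    ∃ h ∈ W₁ ∆ W₂, h ≠ g ∧ ag i g h ∧ ∀ k ∈ W₁ ∆ W₂, ag i g k → k = g ∨ k = h := by
  obtain ⟨g₁, hm, hne, hag, hu⟩ := h1 i g hg1
  by_cases hK : g₁ ∈ W₂
  · obtain ⟨b, hb2, hb1, hbne, hbag, hbu⟩ :=
      partner h2 ho i g₁ (Finset.mem_inter.2 ⟨hm, hK⟩)
    refine ⟨b, Finset.mem_symmDiff.2 (Or.inr ⟨hb2, hb1⟩), fun h => hb1 (h ▸ hg1),
      ag_trans hag hbag, fun k hk hgk => ?_⟩
    rcases Finset.mem_symmDiff.1 hk with ⟨hk1, hk2⟩ | ⟨hk2, hk1⟩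
    · rcases hu k hk1 hgk with h | h
      · exact Or.inl h
      · exact absurd (h ▸ hK) hk2
    · rcases hbu k hk2 (ag_trans (ag_symm hag) hgk) with h | h
      · exact absurd (h ▸ hm) hk1
      · exact Or.inr h
  · refine ⟨g₁, Finset.mem_symmDiff.2 (Or.inl ⟨hm, hK⟩), hne, hag, fun k hk hgk => ?_⟩
    rcases Finset.mem_symmDiff.1 hk with ⟨hk1, hk2⟩ | ⟨hk2, hk1⟩
    · exact hu k hk1 hgk
    · obtain ⟨k', hk', hk'g⟩ := hl i g hg1 k hk2 hgk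
      obtain ⟨ha, hb⟩ := Finset.mem_inter.1 hk'
      rcases hu k' ha hk'g with h | h
      · exact absurd (h ▸ hb) hg2
      · exact absurd (h ▸ hb) hK

theorem pf_GLL : T_GLL := by
  intro p _ W₁ W₂ hW₁ hW₂ H i g hg
  rcases Finset.mem_symmDiff.1 hg with ⟨h1, h2⟩ | ⟨h2, h1⟩
  · exact gll_half hW₁.line hW₂.line H.line H.one i g h1 h2
  · rw [symmDiff_comm]
    exact gll_half hW₂.line hW₁.line (line_swap H.line) (one_swap H.one) i g h2 h1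

end Pool.Agent.H52.PMF
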