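import Pool.Agent.H52.PMF.Base

/-!
# Board pmf, row GLN: connectivity
-/

set_option autoImplicit false

open scoped symmDiff

namespace Pool.Agent.H52.PMF

open Pool.Agent.H54.PM

theorem pf_GLN : T_GLN := by
  intro p _ W₁ W₂ hW₁ hW₂ H
  obtain ⟨k₀, hk₀⟩ := H.ne
  have hk₀' := Finset.mem_inter.1 hk₀
  have hne : (W₁ ∆ W₂).Nonempty := by
    obtain ⟨b, hb2, hb1, _⟩ := partner hW₂.line H.one 0 k₀ hk₀
    exact ⟨b, Finset.mem_symmDiff.2 (Or.inr ⟨hb2, hb1⟩)⟩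
  refine ⟨hne, ?_⟩
  -- paths in the second part
  have hlift : ∀ g h, Relation.ReflTransGen (mv (W₂ \ W₁)) g h →
      Relation.ReflTransGen (mv (W₁ ∆ W₂)) g h := by
    intro g h hgh
    refine Relation.ReflTransGen.mono (fun a b hab => ?_) g h hgh
    obtain ⟨hb, hi⟩ := hab
    have hb' := Finset.mem_sdiff.1 hb
    exact ⟨Finset.mem_symmDiff.2 (Or.inr hb'), hi⟩
  -- every word is connected to the second part
  have hto : ∀ g, Relation.ReflTransGen (mv W₁) g k₀ → g ∈ W₁ → g ∉ W₂ →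
      ∃ b, b ∈ W₂ \ W₁ ∧ Relation.ReflTransGen (mv (W₁ ∆ W₂)) g b := by
    intro g hgk
    induction hgk using Relation.ReflTransGen.head_induction_on with
    | refl => exact fun _ h => absurd hk₀'.2 h
    | @head a c hst _ ih =>
      intro _ _
      obtain ⟨hc, i, hi⟩ := hst
      by_cases hc2 : c ∈ W₂
      · obtain ⟨b, hb2, hb1, _, hag, _⟩ :=
          partner hW₂.line H.one i c (Finset.mem_inter.2 ⟨hc, hc2⟩)
        exact ⟨b, Finset.mem_sdiff.2 ⟨hb2, hb1⟩, Relation.ReflTransGen.single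
          ⟨Finset.mem_symmDiff.2 (Or.inr ⟨hb2, hb1⟩), i, ag_trans hi hag⟩⟩
      · obtain ⟨b, hb, hpath⟩ := ih hc hc2
        exact ⟨b, hb, Relation.ReflTransGen.head
          ⟨Finset.mem_symmDiff.2 (Or.inl ⟨hc, hc2⟩), i, hi⟩ hpath⟩
  have hall : ∀ g ∈ W₁ ∆ W₂, ∃ b, b ∈ W₂ \ W₁ ∧ Relation.ReflTransGen (mv (W₁ ∆ W₂)) g b := by
    intro g hg
    rcases Finset.mem_symmDiff.1 hg with ⟨h1, h2⟩ | ⟨h2, h1⟩
    · exact hto g (hW₁.conn g h1 k₀ hk₀'.1) h1 h2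
    · exact ⟨g, Finset.mem_sdiff.2 ⟨h2, h1⟩, Relation.ReflTransGen.refl⟩
  intro g hg h hh
  obtain ⟨b, hb, hgb⟩ := hall g hg
  obtain ⟨b', hb', hhb⟩ := hall h hh
  exact (hgb.trans (hlift b b' (H.conn b hb b' hb'))).trans (mv_rev hhb hh)

end Pool.Agent.H52.PMF
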